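import Mathlib

set_option autoImplicit false

namespace Pool.Agent.H.MP_5c5aaa_pr

open MeasureTheory ProbabilityTheory Finset

abbrev T := UnitAddCircle

noncomputable def fr (t : T) : ℝ := AddCircle.equivIco 1 0 t

theorem fr_coe (t : T) : ((fr t : ℝ) : T) = t := AddCircle.coe_equivIco

theorem fr_mem (t : T) : 0 ≤ fr t ∧ fr t < 1 := by simpa [fr] using (AddCircle.equivIco 1 0 t).2

theorem fr_meas : Measurable fr := measurable_subtype_coe.comp (AddCircle.measurableEquivIco 1 0).measurable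

noncomputable def wh (g : ℤ × ℤ → T) (v : ℤ × ℤ) : ℝ := fr (g v - g (v.1, v.2 - 1) - ((√2 * v.1 : ℝ) : T))

noncomputable def wu (g : ℤ × ℤ → T) (v : ℤ × ℤ) : ℝ := fr (g (v.1 - 1, v.2) - g v)

noncomputable def r (g : ℤ × ℤ → T) (v : ℤ × ℤ) : ℝ := √2 + (wh g v - wh g (v.1 - 1, v.2)) + (wu g v - wu g (v.1, v.2 - 1))

noncomputable def X (v : ℤ × ℤ) (g : ℤ × ℤ → T) : Fin 4 := Fin.ofNat 4 ⌊r g v⌋₊

theorem X_eq (v g) : ((X v g).val : ℝ) = r g v := by
  obtain ⟨n, h⟩ := (AddCircle.coe_eq_zero_iff (p := (1 : ℝ)) (x := r g v)).1 (by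
    have : (√2 : ℝ) = √2 * v.1 - √2 * ((v.1 - 1 : ℤ) : ℝ) := by push_cast; ring
    rw [r]
    nth_rewrite 1 [this]
    simp only [wh, wu, AddCircle.coe_add, AddCircle.coe_sub, fr_coe]
    abel)
  have h1 : 1 < √2 := Real.lt_sqrt_of_sq_lt (by norm_num)
  have h2 : √2 < 2 := (Real.sqrt_lt' (by norm_num)).2 (by norm_num)
  have : (-1 : ℝ) < r g v ∧ r g v < 4 := by
    unfold r wh wu
    constructor <;> linarith [fr_mem (g v - g (v.1, v.2 - 1) - ((√2 * v.1 : ℝ) : T)), fr_mem (g (v.1 - 1, v.2) - g v),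
      fr_mem (g (v.1 - 1, v.2) - g (v.1 - 1, v.2 - 1) - ((√2 * (v.1 - 1 : ℤ) : ℝ) : T)), fr_mem (g (v.1 - 1, v.2 - 1) - g (v.1, v.2 - 1))]
  rw [X, ← h] at *
  simp only [zsmul_eq_mul, mul_one] at *
  obtain ⟨m, rfl⟩ := Int.eq_ofNat_of_zero_le (show 0 ≤ n from Int.lt_add_one_iff.1 (by exact_mod_cast (show (0 : ℝ) < n + 1 by linarith)))
  have : m < 4 := by exact_mod_cast this.2
  simp [Nat.mod_eq_of_lt this]

theorem X_meas {Ω : Type} {m : MeasurableSpace Ω} (G : Ω → ℤ × ℤ → T) (v : ℤ × ℤ)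
    (h : ∀ f : ℤ × ℤ, f.1 ≤ v.1 → v.1 ≤ f.1 + 1 → f.2 ≤ v.2 → v.2 ≤ f.2 + 1 → Measurable fun ω => G ω f) : Measurable fun ω => X v (G ω) := by
  have h1 := h v (by omega) (by omega) (by omega) (by omega)
  have h2 := h (v.1 - 1, v.2) (by simp) (by simp) (by simp) (by simp)
  have h3 := h (v.1, v.2 - 1) (by simp) (by simp) (by simp) (by simp)
  have h4 := h (v.1 - 1, v.2 - 1) (by simp) (by simp) (by simp) (by simp)
  exact (Measurable.of_discrete (f := Fin.ofNat 4)).comp (Nat.measurable_floor.comp ((((fr_meas.comp ((h1.sub h3).sub_const _)).sub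
    (fr_meas.comp ((h2.sub h4).sub_const _))).const_add _).add ((fr_meas.comp (h2.sub h1)).sub (fr_meas.comp (h4.sub h3)))))

instance : IsProbabilityMeasure (volume : Measure T) := ⟨UnitAddCircle.measure_univ⟩

noncomputable def P : Measure (ℤ × ℤ → T) := Measure.infinitePi fun _ => volume

instance : IsProbabilityMeasure P := by unfold P; infer_instance

theorem mX (v) : Measurable (X v) := X_meas id v fun _ _ _ _ _ => measurable_pi_apply _

theorem inv (u : ℤ × ℤ) : P.map (fun g v => X (u + v) g) = P.map fun g v => X v g := by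
  let δ : ℤ × ℤ → T := fun v => ((-(√2 * u.1 * v.2) : ℝ) : T)
  have e : (P.map fun g v => g (u + v)).map (fun g v => g v + δ v) = P := by
    rw [P, Measure.map_infinitePi_infinitePi_of_inj (add_right_injective u),
      Measure.infinitePi_map_pi _ (f := fun v t => t + δ v) fun v => measurable_add_const _]
    simp only [map_add_right_eq_self]
  conv_rhs => rw [← e]
  rw [Measure.map_map (measurable_pi_lambda _ mX) (by fun_prop), Measure.map_map ((measurable_pi_lambda _ mX).comp (by fun_prop)) (by fun_prop)]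
  congr 1
  funext g v
  have h : ∀ v, wh (fun v => g (u + v) + δ v) v = wh g (u + v) := fun v => by
    have : (√2 * (u + v).1 : ℝ) = √2 * v.1 - (-(√2 * u.1 * v.2) - -(√2 * u.1 * (v.2 - 1 : ℤ))) := by simp; ring
    simp only [wh, this, δ, AddCircle.coe_sub]
    congr 1
    rw [show u + (v.1, v.2 - 1) = ((u + v).1, (u + v).2 - 1) from Prod.ext rfl (by simp [add_sub_assoc])]
    abel
  have h' : ∀ v, wu (fun v => g (u + v) + δ v) v = wu g (u + v) := fun v => by
    simp only [wu, δ]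
    congr 1
    rw [show u + (v.1 - 1, v.2) = ((u + v).1 - 1, (u + v).2) from Prod.ext (by simp [add_sub_assoc]) rfl]
    abel
  simp only [Function.comp, X, r, h, h']
  rw [show u + (v.1 - 1, v.2) = ((u + v).1 - 1, (u + v).2) from Prod.ext (by simp [add_sub_assoc]) rfl,
    show u + (v.1, v.2 - 1) = ((u + v).1, (u + v).2 - 1) from Prod.ext rfl (by simp [add_sub_assoc])]

theorem ind (A B : Set (ℤ × ℤ)) (h : ∀ a ∈ A, ∀ b ∈ B, (2 : ℝ) ≤ dist a b) :
    IndepFun (fun g (v : A) => X v g) (fun g (v : B) => X v g) P := by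
  let N : Set (ℤ × ℤ) → Set (ℤ × ℤ) := fun A => {f | ∃ v ∈ A, f.1 ≤ v.1 ∧ v.1 ≤ f.1 + 1 ∧ f.2 ≤ v.2 ∧ v.2 ≤ f.2 + 1}
  have k : ∀ A : Set (ℤ × ℤ), MeasurableSpace.comap (fun (g : ℤ × ℤ → T) (v : A) => X v g) inferInstance ≤
      ⨆ i ∈ N A, MeasurableSpace.comap (fun g : ℤ × ℤ → T => g i) inferInstance := fun A =>
    Measurable.comap_le (@measurable_pi_lambda _ _ _ (_) _ _ fun v => X_meas id v.1 fun f a b c d =>
      Measurable.of_comap_le (le_iSup₂_of_le f ⟨v.1, v.2, a, b, c, d⟩ le_rfl))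
  refine indep_of_indep_of_le (indep_iSup_of_disjoint (fun i => (measurable_pi_apply i).comap_le)
    (iIndepFun_infinitePi (X := fun _ t => t) fun _ => measurable_id).iIndep (Set.disjoint_left.2 ?_)) (k A) (k B)
  rintro f ⟨a, x, y⟩ ⟨b, z, w⟩
  have := h a x b z
  rw [Prod.dist_eq, Int.dist_eq', Int.dist_eq', le_max_iff] at this
  norm_cast at this
  simp only [le_abs] at this
  omega

theorem box (g) (N : ℕ) : |∑ i ∈ range N, ∑ j ∈ range N, r g (i, j) - √2 * N ^ 2| ≤ 2 * N := by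
  have t : ∀ f : ℤ → ℝ, (∀ i, 0 ≤ f i ∧ f i < 1) → |∑ i ∈ range N, (f i - f (i - 1))| ≤ 1 := fun f h => by
    have := sum_range_sub (fun i : ℕ => f (i - 1)) N
    simp only [Nat.cast_succ, add_sub_cancel_right] at this
    rw [this, abs_le]
    constructor <;> linarith [h (N - 1), h ((0 : ℕ) - 1)]
  have s : ∀ F : ℕ → ℝ, (∀ i, |F i| ≤ 1) → |∑ i ∈ range N, F i| ≤ N := fun F h =>
    (abs_sum_le_sum_abs _ _).trans ((sum_le_card_nsmul _ _ 1 fun i _ => h i).trans (by simp))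
  have h1 := s _ fun j => t (fun i => wh g (i, j)) fun _ => fr_mem _
  have h2 := s _ fun i => t (fun j => wu g (i, j)) fun _ => fr_mem _
  rw [sum_comm] at h1
  simp only [r, sum_add_distrib, sum_const, card_range, nsmul_eq_mul]
  rw [abs_le] at *
  constructor <;> linarith

theorem per (f : ℤ → ℝ) (p k : ℕ) (h : ∀ i, f (i + p) = f i) : ∑ i ∈ range (k * p), f i = k * ∑ i ∈ range p, f i := by
  induction k with
  | zero => simp
  | succ k ih =>
    rw [Nat.succ_mul, sum_range_add, ih, Nat.cast_succ, add_mul, one_mul]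
    congr 1
    exact sum_congr rfl fun i _ => by simpa [add_comm] using (Function.Periodic.nat_mul h k) i

theorem aper (x : ℤ × ℤ → Fin 4) (hx : ∀ B : Finset (ℤ × ℤ), 0 < P {g | ∀ v ∈ B, X v g = x v}) (H : AddSubgroup (ℤ × ℤ)) [H.FiniteIndex] :
    ¬ ∀ v ∈ H, ∀ u, x (u + v) = x u := fun h => by
  have p0 : 0 < H.index := Nat.pos_of_ne_zero AddSubgroup.FiniteIndex.index_ne_zero
  have h1 := h _ (H.nsmul_index_mem (1, 0))
  have h2 := h _ (H.nsmul_index_mem (0, 1))
  generalize H.index = p at *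
  have : ∀ k : ℕ, |(k : ℝ) * (k * ∑ i ∈ range p, ∑ j ∈ range p, (x (i, j) : ℝ)) - √2 * (k * p : ℕ) ^ 2| ≤ 2 * (k * p : ℕ) := fun k => by
    obtain ⟨g, e⟩ := nonempty_of_measure_ne_zero (hx ((range (k * p) ×ˢ range (k * p)).image fun y => ((y.1 : ℤ), (y.2 : ℤ)))).ne'
    convert box g (k * p) using 3
    rw [mul_sum, ← per (fun i => k * ∑ j ∈ range p, (x (i, j) : ℝ)) p k fun i => by
      simp only [← fun j => h1 (i, j)]; simp]
    refine sum_congr rfl fun i a => ?_
    rw [← per (fun j => (x (i, j) : ℝ)) p k fun j => by simp only [← h2 (i, j)]; simp]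
    exact sum_congr rfl fun j b => by rw [← X_eq, e _ (mem_image.2 ⟨(i, j), mem_product.2 ⟨a, b⟩, rfl⟩)]
  have e : ((∑ i ∈ range p, ∑ j ∈ range p, (x (i, j)).val : ℕ) : ℝ) = √2 * (p ^ 2 : ℕ) := by
    push_cast at this ⊢
    generalize ∑ i ∈ range p, ∑ j ∈ range p, (x (i, j) : ℝ) = S at *
    by_contra c
    have d := abs_pos.2 (sub_ne_zero.2 c)
    obtain ⟨k, hk⟩ := exists_nat_gt (2 * p / |S - √2 * p ^ 2|)
    have k0 : (0 : ℝ) < k := lt_of_le_of_lt (by positivity) hk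
    have := this k
    rw [show k * (k * S) - √2 * (k * p) ^ 2 = k * (k * (S - √2 * p ^ 2)) by ring, abs_mul, abs_mul, abs_of_pos k0] at this
    rw [div_lt_iff₀ d] at hk
    nlinarith
  exact (irrational_sqrt_two.mul_natCast (pow_pos p0 2).ne').ne_nat _ e.symm

theorem supp : ∃ x : ℤ × ℤ → Fin 4, ∀ B : Finset (ℤ × ℤ), 0 < P {g | ∀ v ∈ B, X v g = x v} := by
  by_contra! h
  choose B h using h
  obtain ⟨t, ht⟩ := isCompact_univ.elim_finite_subcover (fun x => {y : ℤ × ℤ → Fin 4 | ∀ v ∈ B x, y v = x v}) (fun x => by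
    simp only [Set.ofPred_forall]
    exact isOpen_biInter_finset fun v _ => (continuous_apply (A := fun _ => Fin 4) v).isOpen_preimage {x v} (isOpen_discrete _)) fun x _ => Set.mem_iUnion.2 ⟨x, fun _ _ => rfl⟩
  refine one_ne_zero ((measure_univ (μ := P)).symm.trans (measure_mono_null (fun g _ => ?_)
    ((measure_biUnion_null_iff t.countable_toSet).2 fun x _ => nonpos_iff_eq_zero.1 (h x))))
  simpa using ht (Set.mem_univ fun v => X v g)

end Pool.Agent.H.MP_5c5aaa_pr
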